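import Pool.Agent.H83.G.Targets1

/-!
# Fourier inversion on `Z m`
-/

set_option autoImplicit false

namespace Pool.Agent.H42.G

open MeasureTheory Set SchwartzMap FourierTransform Pool.Agent.H83.G
open scoped ENNReal NNReal RealInnerProductSpace

private lemma e_eq (x : ℝ) : e x = (Real.fourierChar x : ℂ) := by
  rw [Real.fourierChar_apply, e]

/-- Fourier inversion -/
theorem pf_IVZ (hTRZ : T_TRZ) : T_IVZ := by
  intro m G hG
  obtain ⟨Φ, hΦ, hph⟩ := hTRZ m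
  have hemb : MeasurableEmbedding Φ := Φ.toHomeomorph.measurableEmbedding
  have hfs : ContDiff ℝ (⊤ : ℕ∞) (fun x => G (Φ x)) := hG.1.comp Φ.contDiff
  have hfc : HasCompactSupport (fun x => G (Φ x)) := hG.2.comp_homeomorph Φ.toHomeomorph
  set f : 𝓢(EuclideanSpace ℝ (Fin (m + 2)), ℂ) := hfc.toSchwartzMap hfs with hf
  have hfa : ∀ x, f x = G (Φ x) := fun x => rfl
  have hT : ∀ x, TF G (Φ x) = (𝓕⁻ f : 𝓢(EuclideanSpace ℝ (Fin (m + 2)), ℂ)) x := by
    intro x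
    unfold TF
    rw [← hΦ.integral_comp hemb, SchwartzMap.fourierInv_coe, Real.fourierInv_eq]
    congr 1
    ext ξ
    rw [hph, e_eq, real_inner_comm, hfa]
    rfl
  refine ⟨?_, ?_⟩
  · rw [← hΦ.integrable_comp_emb hemb]
    have h1 : TF G ∘ Φ = ((𝓕⁻ f : 𝓢(EuclideanSpace ℝ (Fin (m + 2)), ℂ)) :
        EuclideanSpace ℝ (Fin (m + 2)) → ℂ) := by
      funext x
      exact hT x
    rw [h1]
    exact SchwartzMap.integrable _
  · intro ζ
    obtain ⟨ξ, rfl⟩ := Φ.surjective ζ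
    rw [← hΦ.integral_comp hemb]
    have h1 : 𝓕 (𝓕⁻ f : 𝓢(EuclideanSpace ℝ (Fin (m + 2)), ℂ)) = f :=
      FourierTransform.fourier_fourierInv_eq f
    have h2 : G (Φ ξ) = (𝓕 (𝓕⁻ f : 𝓢(EuclideanSpace ℝ (Fin (m + 2)), ℂ)) :
        𝓢(EuclideanSpace ℝ (Fin (m + 2)), ℂ)) ξ := by
      rw [h1, hfa]
    rw [h2, SchwartzMap.fourier_coe, Real.fourier_eq]
    congr 1
    ext x
    rw [hph, hT, e_eq]
    rfl

end Pool.Agent.H42.G
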